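import Pool.Agent.Y746.PT.Main

/-!
# A zero-free half-plane from short blocks of powers of two

`E(x) = ∑ Λ(n) n / (n + x)³ - 1 / (2x)` is a smoothed error term of the prime number theorem.  For every
`q > 1` (for instance `q = 2`) its size at the powers `q ^ k`, in one block `N ≤ k ≤ N + N ^ α` for
infinitely many `N`, decides whether the zeta function has zeros with real part greater than `θ`.
The block may be short: `α = 4 θ (1 - θ)` is enough, and for the existence of some zero-free half-plane
every `α > 0` is enough.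

Proof idea.  The kernel is chosen such that the coefficients of the sum over the zeros,
`Γ(1 + ρ) Γ(2 - ρ)`, have positive real parts in the whole critical strip and decay exponentially.  Hence
only zeros up to height `O(k)` matter for `E(q ^ k)`; by Carlson's zero density estimate those with
`Re ρ ≥ η > θ` are fewer than the length of the block.  A power sum with fewer terms than the length
of the block is bounded below by interpolation (in the manner of Turán), separating the
zeros by a vertical line which avoids them; coincidences among the numbers `q ^ ρ` do no harm, since all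
coefficients have positive real parts.
-/

set_option autoImplicit false

open Filter

namespace Pool.Agent.Results.MP_5a4862_nt.GeometricSampling

/-- The smoothed error term `E(x) = ∑ Λ(n) n / (n + x)³ - 1 / (2x)`, where `Λ` is the function of von
Mangoldt. -/
noncomputable def E (x : ℝ) : ℝ :=
  (∑' n : ℕ, ArithmeticFunction.vonMangoldt n * ((n : ℝ) / (n + x) ^ 3)) - 1 / (2 * x)

/-- On infinitely many blocks `N ≤ k ≤ N + N ^ α` the values `E(q ^ k)` are `O((q ^ k) ^ (θ - 2))`, with one
implied constant. -/
def SmallOnBlocks (q α θ : ℝ) : Prop :=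
  ∃ C : ℝ, ∃ᶠ N : ℕ in atTop, ∀ k : ℕ, N ≤ k → (k : ℝ) ≤ N + (N : ℝ) ^ α →
    |E (q ^ k)| ≤ C * (q ^ k) ^ (θ - 2)

theorem result (q : ℝ) (hq : 1 < q) :
    (∀ θ α : ℝ, 1 / 2 ≤ θ → 4 * θ * (1 - θ) ≤ α →
      [∀ s : ℂ, θ < s.re → riemannZeta s ≠ 0,
        ∃ C : ℝ, ∀ x : ℝ, 1 ≤ x → |E x| ≤ C * x ^ (θ - 2),
        SmallOnBlocks q α θ].TFAE) ∧
    ∀ α : ℝ, 0 < α →
      ((∃ σ₀ : ℝ, 1 / 2 < σ₀ ∧ σ₀ < 1 ∧ ∀ s : ℂ, σ₀ ≤ s.re → riemannZeta s ≠ 0) ↔
        ∃ θ : ℝ, θ < 1 ∧ SmallOnBlocks q α θ) :=
  ⟨fun _ _ hθ hα => Pool.Agent.Y746.PT.three hq hθ hα,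
    fun _ hα => Pool.Agent.Y746.PT.quest hq hα⟩

end Pool.Agent.Results.MP_5a4862_nt.GeometricSampling
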