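import Pool.Agent.Y23.GQ.Up3
import Pool.Agent.Y23.GQ.Low
import Pool.Agent.Y23.GY.Prd

set_option autoImplicit false

/-!
# MP_5a4862_nt: zero-free half-planes and the growth of the negative part of Weil's quadratic form

For `a > 0` let `W a` be Weil's quadratic form on the functions of `L²(-a, a)`, written through the pole, the
archimedean place and the prime powers up to `exp (2 a)`; no zero of zeta enters.  Let `N f` be the square of the
norm of the form domain, `N f = ∫ log (3 + |t|) |M f (1/2 + i t)|² dt`.  By Weil, the Riemann hypothesis holds if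
and only if `W a` is positive for all `a`.

We determine, unconditionally, how negative `W a` is.  Let `Θ` be the supremum of the real parts of the zeros of
zeta, and `λ(a)` the infimum of `W a f` for `N f = 1`.  Then `log⁺ (-λ(a)) / a` tends to `2 Θ - 1`, that is,
`λ(a) = -exp ((2 Θ - 1 + o(1)) a)`, unless the Riemann hypothesis holds:

* for every `c > 2 Θ - 1` we have `W a f ≥ -exp (c a) N f` for all large `a` and all `f`;
* for every `c < 2 Θ - 1` and ALL large `a` this is false for some `f`, if the Riemann hypothesis is false.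

So `σ ≥ 1/2` is such that zeta has no zeros with `Re s > σ` if and only if the lower bound holds for all
`c > 2 σ - 1` and all large `a`, and it is sufficient that for each `c` it holds for arbitrarily large `a`.  The
trivial bound is the one for `c > 1`.  There is a zero-free half-plane `Re s > σ` with `σ < 1` if and only if for
one `c < 1` the bound holds for arbitrarily large `a`.

The proof: for the upper bound a version of the theorem of Plancherel and Polya in the strip of the zeros, where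
the constant is a power of `a` times `exp (2 a δ)`.  For the lower bound let `f` be a sum of the translates of a
fixed function by `b` and `-b`.  If the lower bound for `W a` holds for one `a` it gives a bound for a sum over the
zeros, `∑ g(ρ) exp (2 b (ρ - 1/2))`, for all `b ≤ a - 2`.  The Laplace transform of this sum over `0 ≤ b ≤ a - 2`,
compared with the one over all `b`, and the theorem of the three lines for the difference times xi, exclude the
zero.  We prove it for all L-functions (modules `Pool.Agent.Y23.GQ`).  Several lemmas come from helper51, helper93,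
helper98, helper219, helper333, helper349, helper387, helper391, helper496, helper587, helper606, helper686,
helper884, helper891, helper972.
-/

namespace Pool.Agent.Results.MP_5a4862_nt.WeilFormGrowth

open Complex MeasureTheory Filter Topology

/-- The Mellin transform of `f` in the logarithmic variable, centred at `1/2`. -/
noncomputable def M (f : ℝ → ℂ) (s : ℂ) : ℂ := ∫ x : ℝ, f x * cexp ((s - 1 / 2) * x)

/-- The form domain: `f` is square integrable, vanishes off `[-a, a]`, and its transform on the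
critical line is square integrable against the logarithmic weight. -/
def InDom (a : ℝ) (f : ℝ → ℂ) : Prop := MemLp f 2 volume ∧ (∀ x : ℝ, a < |x| → f x = 0) ∧
  Integrable fun t : ℝ => Real.log (3 + |t|) * ‖M f (1 / 2 + t * I)‖ ^ 2

/-- The square of the norm of the form domain. -/
noncomputable def N (f : ℝ → ℂ) : ℝ := ∫ t : ℝ, Real.log (3 + |t|) * ‖M f (1 / 2 + t * I)‖ ^ 2

/-- Weil's quadratic form for functions supported in `[-a, a]`: the pole, the archimedean place and the prime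
powers `n ≤ exp (2 a)`. -/
noncomputable def W (a : ℝ) (f : ℝ → ℂ) : ℝ :=
  2 * (M f 1 * (starRingEnd ℂ) (M f 0)).re +
    1 / (2 * Real.pi) * (∫ t : ℝ, ((digamma (1 / 4 + t / 2 * I)).re - Real.log Real.pi) *
      ‖M f (1 / 2 + t * I)‖ ^ 2) -
    2 * (∑ n ∈ Finset.Icc 1 ⌊Real.exp (2 * a)⌋₊, ArithmeticFunction.vonMangoldt n / Real.sqrt n *
      ∫ x : ℝ, f (x + Real.log n) * (starRingEnd ℂ) (f x)).re

/-- The infimum of Weil's form on the functions of norm one. -/
noncomputable def lam (a : ℝ) : ℝ := sInf {x : ℝ | ∃ f : ℝ → ℂ, InDom a f ∧ N f = 1 ∧ x = W a f}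

/-- The supremum of `1/2` and of the real parts of the zeros of zeta. -/
noncomputable def Theta : ℝ := sSup (insert (1 / 2) {x : ℝ | ∃ s : ℂ, riemannZeta s = 0 ∧ x = s.re})

/-- The lower bound `W a f ≥ -exp (c a) N f`. -/
def LowerBound (c a : ℝ) : Prop := ∀ f : ℝ → ℂ, InDom a f → -(Real.exp (c * a) * N f) ≤ W a f

open Y23.G Pool.Agent.W355.UN

lemma zstr : ∀ a ∈ ([0] : List ℂ), -1 / 2 < a.re := by
  intro a ha
  rw [List.mem_singleton.1 ha]
  norm_num

/-- zeta -/
@[reducible] noncomputable def zL : LFun where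
  m := ([0] : List ℂ).length
  r := 1
  N := 1
  a := fun j => ([0] : List ℂ).get j
  b := fun _ => 1
  c := fun n => if n = 0 then 0 else 1
  X := fun s => s * (s - 1) * completedRiemannZeta₀ s + 1
  raw := (PR.of_rawL zeta_raw zstr).raw
  str := fun j => zstr _ (List.get_mem _ _)

lemma M_eq (f : ℝ → ℂ) (s : ℂ) : M f s = Y23.TT f (s - 1 / 2) := rfl

lemma M_line (f : ℝ → ℂ) (t : ℝ) : M f (1 / 2 + t * I) = Y23.TT f (t * I) := by
  rw [M_eq]; congr 1; ring

lemma inDom_iff (a : ℝ) (f : ℝ → ℂ) : InDom a f ↔ Hd a f := by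
  unfold InDom Hd Y23.Fa Lg
  simp only [M_line, and_assoc]

lemma N_eq (f : ℝ → ℂ) : N f = LL f := by
  unfold N LL Lg
  simp only [M_line]

lemma GD_eq (t : ℝ) : (GD (L := zL)) t = (digamma (1 / 4 + t / 2 * I)).re - Real.log Real.pi := by
  unfold GD GA H353.E.gaD
  have e1 : (⟨1 / 2, t⟩ : ℂ) = 1 / 2 + t * I := by
    rw [H370.mk_eq]; push_cast; ring
  rw [e1, Complex.add_re, Complex.ofReal_re, Complex.re_sum, mul_add, Finset.mul_sum]
  have e0 : (zL).N = 1 := rfl
  have hm : (zL).m = 1 := rfl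
  have e2 : ∀ j : Fin (zL).m, (1 / 2 + (t : ℂ) * I - -(zL).a j) / 2 = 1 / 4 + t / 2 * I := by
    intro j
    have h0 : (zL).a j = 0 := by
      have h1 := List.get_mem ([0] : List ℂ) j
      exact List.mem_singleton.1 h1
    rw [h0]
    ring
  simp only [e2]
  rw [Finset.sum_const, Finset.card_univ, Fintype.card_fin, e0, hm, one_smul, Real.log_one]
  have e4 : logDeriv Gamma (1 / 4 + (t : ℂ) / 2 * I) = digamma (1 / 4 + t / 2 * I) := rfl
  rw [e4, Complex.add_re, Complex.ofReal_re]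
  have e5 : (digamma (1 / 4 + (t : ℂ) / 2 * I) / 2).re = (digamma (1 / 4 + t / 2 * I)).re / 2 := by
    rw [show (2 : ℂ) = ((2 : ℝ) : ℂ) by norm_num, Complex.div_ofReal_re]
  rw [e5]
  ring

lemma W_eq {a : ℝ} (ha : 0 < a) {f : ℝ → ℂ} (hf : InDom a f) : W a f = QQ (D := zd (L := zL)) f := by
  rw [weil (L := zL) ha ((inDom_iff a f).1 hf)]
  have e1 : M f 1 = Y23.TT f (1 / 2) := by rw [M_eq]; congr 1; ring
  have e2 : M f 0 = Y23.TT f (-(1 / 2)) := by rw [M_eq]; congr 1; ring
  have e3 : ∀ n ∈ Finset.Icc 1 ⌊Real.exp (2 * a)⌋₊, ((ArithmeticFunction.vonMangoldt n : ℝ) : ℂ) / ((Real.sqrt n : ℝ) : ℂ) *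
      (∫ x : ℝ, f (x + Real.log n) * (starRingEnd ℂ) (f x)) = aL (L := zL) n *
      ∫ x : ℝ, f (x + Real.log n) * (starRingEnd ℂ) (f x) := by
    intro n hn
    have hn1 := (Finset.mem_Icc.1 hn).1
    congr 1
    have e3 : aL (L := zL) n = ((ArithmeticFunction.vonMangoldt n : ℝ) : ℂ) *
        ((if n = 0 then 0 else 1) * TH839.NA.pw (-(1 / 2)) n) := rfl
    rw [e3, if_neg (by omega)]
    unfold TH839.NA.pw
    rw [Real.rpow_neg (Nat.cast_nonneg _), ← Real.sqrt_eq_rpow]
    push_cast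
    ring
  unfold W
  rw [Finset.sum_congr rfl e3]
  simp only [e1, e2, M_line, GD_eq]
  have e4 : ((zL).r : ℝ) = 1 := by
    have : (zL).r = 1 := rfl
    rw [this, Nat.cast_one]
  rw [e4, mul_one]

lemma X_eq {s : ℂ} (h0 : s ≠ 0) (h1 : s ≠ 1) : (zL).X s = s * (s - 1) * completedRiemannZeta s := by
  show s * (s - 1) * completedRiemannZeta₀ s + 1 = _
  rw [completedRiemannZeta_eq]
  have h2 : 1 - s ≠ 0 := sub_ne_zero.2 (Ne.symm h1)
  field_simp
  ring

lemma X_pos {s : ℂ} (hs : 0 < s.re) : (zL).X s = 0 ↔ riemannZeta s = 0 := by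
  have h0 : s ≠ 0 := by
    rintro rfl
    simp at hs
  by_cases h1 : s = 1
  · rw [h1]
    constructor
    · intro h
      have e : (zL).X 1 = 1 := by
        show (1 : ℂ) * (1 - 1) * completedRiemannZeta₀ 1 + 1 = 1
        ring
      rw [e] at h
      exact absurd h one_ne_zero
    · intro h
      exact absurd h (riemannZeta_ne_zero_of_one_le_re (by simp))
  · rw [X_eq h0 h1, riemannZeta_def_of_ne_zero h0]
    have h2 : s - 1 ≠ 0 := sub_ne_zero.2 h1
    have h3 : Gammaℝ s ≠ 0 := Gammaℝ_ne_zero_of_re_pos hs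
    constructor
    · intro h
      rcases mul_eq_zero.1 h with h | h
      · exact absurd h (mul_ne_zero h0 h2)
      · rw [h, zero_div]
    · intro h
      rcases div_eq_zero_iff.1 h with h | h
      · rw [h, mul_zero]
      · exact absurd h h3

lemma X_fe' (s : ℂ) : (zL).X (1 - s) = (zL).X s := by
  show (1 - s) * (1 - s - 1) * completedRiemannZeta₀ (1 - s) + 1 = s * (s - 1) * completedRiemannZeta₀ s + 1
  rw [completedRiemannZeta₀_one_sub]
  ring

/-- the zeros of `X` are in the open strip -/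
lemma X_lt {s : ℂ} (h : (zL).X s = 0) : s.re < 1 := by
  by_contra hc
  push Not at hc
  exact riemannZeta_ne_zero_of_one_le_re hc ((X_pos (by linarith)).1 h)

/-- zeta has no zeros to the right of `σ` -/
def ZeroFree (σ : ℝ) : Prop := ∀ s : ℂ, riemannZeta s = 0 → s.re ≤ σ

lemma zf_strip {σ : ℝ} (hσ : 1 / 2 ≤ σ) (h : ZeroFree σ) (ρ : Zt (D := zd (L := zL))) :
    |((ρ : ℂ) - 1 / 2).re| ≤ σ - 1 / 2 := by
  have key : ∀ s : ℂ, (zL).X s = 0 → s.re ≤ σ := by
    intro s hs
    by_cases h0 : 0 < s.re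
    · exact h s ((X_pos h0).1 hs)
    · linarith
  have h1 : (zL).X (ρ : ℂ) = 0 := ρ.2
  have h2 := key _ h1
  have h3 := key (1 - (ρ : ℂ)) (by rw [X_fe']; exact h1)
  have e : ((ρ : ℂ) - 1 / 2).re = (ρ : ℂ).re - 1 / 2 := by simp
  rw [Complex.sub_re, Complex.one_re] at h3
  rw [e, abs_le]
  constructor <;> linarith

lemma lb_of {σ c : ℝ} (hσ : 1 / 2 ≤ σ) (h : ZeroFree σ) (hc : 2 * σ - 1 < c) : ∀ᶠ a in atTop, LowerBound c a := by
  obtain ⟨A, hA⟩ := GQ.low (D := zd (L := zL)) (EC := zc (L := zL)) (δ := σ - 1 / 2) (c := c) (by linarith)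
    (zf_strip hσ h) (by linarith)
  filter_upwards [eventually_ge_atTop A, eventually_gt_atTop 0] with a ha ha0 f hf
  rw [N_eq, W_eq ha0 hf]
  exact hA a ha f ((inDom_iff a f).1 hf)

lemma neg_of {s : ℂ} (hs : riemannZeta s = 0) (hre : 1 / 2 < s.re) {c : ℝ} (hc : c < 2 * s.re - 1) :
    ∀ᶠ a in atTop, ∃ f : ℝ → ℂ, InDom a f ∧ W a f < -(Real.exp (c * a) * N f) := by
  have h1 : (zL).X (1 / 2 + (s - 1 / 2)) = 0 := by
    rw [add_sub_cancel]
    exact (X_pos (by linarith)).2 hs
  have e : (s - 1 / 2).re = s.re - 1 / 2 := by simp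
  obtain ⟨A, hA⟩ := GQ.up (L := zL) h1 (by rw [e]; linarith) (c := c) (by rw [e]; linarith)
  filter_upwards [eventually_ge_atTop A, eventually_gt_atTop 0] with a ha ha0
  obtain ⟨f, hf, hlt⟩ := hA a ha
  have hf' := (inDom_iff a f).2 hf
  exact ⟨f, hf', by rw [N_eq, W_eq ha0 hf']; exact hlt⟩

lemma zf_of {σ : ℝ} (hσ : 1 / 2 ≤ σ) (h : ∀ c, 2 * σ - 1 < c → ∃ᶠ a in atTop, LowerBound c a) : ZeroFree σ := by
  intro s hs
  by_contra hcon
  push Not at hcon
  have h1 := neg_of hs (by linarith) (c := σ + s.re - 1) (by linarith)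
  obtain ⟨a, ha1, f, hf, hlt⟩ := ((h (σ + s.re - 1) (by linarith)).and_eventually h1).exists
  exact absurd (ha1 f hf) (not_le.2 hlt)

lemma zeta_re_lt {s : ℂ} (hs : riemannZeta s = 0) : s.re < 1 := by
  by_contra hcon
  push Not at hcon
  exact riemannZeta_ne_zero_of_one_le_re hcon hs

lemma bdd : BddAbove (insert (1 / 2) {x : ℝ | ∃ s : ℂ, riemannZeta s = 0 ∧ x = s.re}) := by
  refine ⟨1, ?_⟩
  rintro x (rfl | ⟨s, hs, rfl⟩)
  · norm_num
  · exact (zeta_re_lt hs).le

lemma half_le : 1 / 2 ≤ Theta := le_csSup bdd (Set.mem_insert _ _)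

lemma zf_Theta : ZeroFree Theta := fun s hs => le_csSup bdd (Set.mem_insert_of_mem _ ⟨s, hs, rfl⟩)

lemma scale {a : ℝ} (ha : 0 < a) {f : ℝ → ℂ} (hf : InDom a f) (r : ℂ) : InDom a (fun x => r * f x) ∧
    N (fun x => r * f x) = ‖r‖ ^ 2 * N f ∧ W a (fun x => r * f x) = ‖r‖ ^ 2 * W a f := by
  have h1 := (inDom_iff a _).2 (((inDom_iff a f).1 hf).smul r)
  refine ⟨h1, by rw [N_eq, N_eq, LL_smul], ?_⟩
  rw [W_eq ha h1, W_eq ha hf]
  unfold QQ
  rw [← tsum_mul_left]
  refine tsum_congr fun ρ => ?_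
  have e : GG (fun x => r * f x) (fun x => r * f x) ((ρ : ℂ) - 1 / 2) =
      ((‖r‖ ^ 2 : ℝ) : ℂ) * GG f f ((ρ : ℂ) - 1 / 2) := by
    unfold GG
    rw [Y23.TT_smul, Y23.TT_smul, map_mul, ← Complex.normSq_eq_norm_sq, ← Complex.mul_conj]
    ring
  rw [e, Complex.re_ofReal_mul]
  ring

lemma lam_ge {a c : ℝ} (h : LowerBound c a) : -Real.exp (c * a) ≤ lam a := by
  unfold lam
  rcases Set.eq_empty_or_nonempty {x : ℝ | ∃ f : ℝ → ℂ, InDom a f ∧ N f = 1 ∧ x = W a f} with h1 | h1
  · rw [h1, Real.sInf_empty]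
    linarith [Real.exp_pos (c * a)]
  · refine le_csInf h1 ?_
    rintro x ⟨f, hf, hN, rfl⟩
    have := h f hf
    rwa [hN, mul_one] at this

lemma lam_lt {a c c' : ℝ} (ha : 0 < a) (h' : LowerBound c' a)
    (h : ∃ f : ℝ → ℂ, InDom a f ∧ W a f < -(Real.exp (c * a) * N f)) : lam a < -Real.exp (c * a) := by
  obtain ⟨f, hf, hlt⟩ := h
  have hN0 : 0 ≤ N f := by rw [N_eq]; exact LL_nonneg f
  have hNp : 0 < N f := by
    rcases hN0.eq_or_lt with h0 | h0
    · have h1 := h' f hf
      rw [← h0, mul_zero] at h1 hlt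
      linarith
    · exact h0
  set r : ℂ := ((1 / Real.sqrt (N f) : ℝ) : ℂ) with hr
  have hr2 : ‖r‖ ^ 2 = 1 / N f := by
    rw [hr, Complex.norm_real, Real.norm_eq_abs, sq_abs, div_pow, one_pow, Real.sq_sqrt hN0]
  obtain ⟨h1, h2, h3⟩ := scale ha hf r
  rw [hr2, one_div_mul_cancel hNp.ne'] at h2
  have h4 : W a (fun x => r * f x) < -Real.exp (c * a) := by
    rw [h3, hr2, one_div, inv_mul_eq_div, div_lt_iff₀ hNp]
    linarith
  refine lt_of_le_of_lt (csInf_le ?_ ⟨_, h1, h2, rfl⟩) h4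
  refine ⟨-Real.exp (c' * a), ?_⟩
  rintro x ⟨g, hg, hNg, rfl⟩
  have := h' g hg
  rwa [hNg, mul_one] at this

lemma limit : Tendsto (fun a => Real.log (max 1 (-lam a)) / a) atTop (𝓝 (2 * Theta - 1)) := by
  have hΘ := half_le
  refine tendsto_order.2 ⟨fun c hc => ?_, fun c hc => ?_⟩
  · by_cases hc0 : c < 0
    · filter_upwards [eventually_gt_atTop 0] with a ha
      have h1 : 0 ≤ Real.log (max 1 (-lam a)) := Real.log_nonneg (le_max_left _ _)
      exact lt_of_lt_of_le hc0 (by positivity)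
    · push Not at hc0
      obtain ⟨x, hx, hlt⟩ := exists_lt_of_lt_csSup (s := insert (1 / 2) {x : ℝ | ∃ s : ℂ, riemannZeta s = 0 ∧ x = s.re})
        (Set.insert_nonempty _ _) (show (c + 1) / 2 < Theta by linarith)
      rcases hx with rfl | ⟨s, hs, rfl⟩
      · exfalso
        linarith
      have h1 := neg_of hs (by linarith) (c := (c + (2 * s.re - 1)) / 2) (by linarith)
      have h2 := lb_of half_le zf_Theta (c := 2 * Theta) (by linarith)
      filter_upwards [h1, h2, eventually_gt_atTop 0] with a ha1 ha2 ha0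
      have h3 := lam_lt ha0 ha2 ha1
      have h4 : Real.exp ((c + (2 * s.re - 1)) / 2 * a) ≤ max 1 (-lam a) := le_trans (by linarith) (le_max_right _ _)
      have h5 := Real.log_le_log (Real.exp_pos _) h4
      rw [Real.log_exp] at h5
      rw [lt_div_iff₀ ha0]
      have h6 : c * a < (c + (2 * s.re - 1)) / 2 * a := mul_lt_mul_of_pos_right (by linarith) ha0
      linarith
  · have h2 := lb_of half_le zf_Theta (c := (c + (2 * Theta - 1)) / 2) (by linarith)
    filter_upwards [h2, eventually_gt_atTop 0] with a ha2 ha0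
    have h3 := lam_ge ha2
    have hc0 : 0 ≤ (c + (2 * Theta - 1)) / 2 := by linarith
    have h4 : max 1 (-lam a) ≤ Real.exp ((c + (2 * Theta - 1)) / 2 * a) :=
      max_le (Real.one_le_exp (by positivity)) (by linarith)
    have h5 := Real.log_le_log (by positivity : 0 < max 1 (-lam a)) h4
    rw [Real.log_exp] at h5
    rw [div_lt_iff₀ ha0]
    have h6 : (c + (2 * Theta - 1)) / 2 * a < c * a := mul_lt_mul_of_pos_right (by linarith) ha0
    linarith

theorem result :
    -- the exponent of the negative part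
    Tendsto (fun a => Real.log (max 1 (-lam a)) / a) atTop (𝓝 (2 * Theta - 1)) ∧
    -- the growth of the negative part gives the supremum of the real parts of the zeros
    (∀ σ : ℝ, 1 / 2 ≤ σ → (ZeroFree σ ↔ ∀ c, 2 * σ - 1 < c → ∀ᶠ a in atTop, LowerBound c a)) ∧
    -- arbitrarily large `a` are sufficient
    (∀ σ : ℝ, 1 / 2 ≤ σ → (ZeroFree σ ↔ ∀ c, 2 * σ - 1 < c → ∃ᶠ a in atTop, LowerBound c a)) ∧
    -- every zero makes the form negative for all large `a`
    (∀ s : ℂ, riemannZeta s = 0 → 1 / 2 < s.re → ∀ c, c < 2 * s.re - 1 →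
      ∀ᶠ a in atTop, ∃ f : ℝ → ℂ, InDom a f ∧ W a f < -(Real.exp (c * a) * N f)) ∧
    -- the trivial bound
    (∀ c, 1 < c → ∀ᶠ a in atTop, LowerBound c a) ∧
    -- the question: a zero-free half-plane
    ((∃ σ, σ < 1 ∧ ∀ s : ℂ, σ ≤ s.re → riemannZeta s ≠ 0) ↔ ∃ c, c < 1 ∧ ∀ᶠ a in atTop, LowerBound c a) ∧
    ((∃ σ, σ < 1 ∧ ∀ s : ℂ, σ ≤ s.re → riemannZeta s ≠ 0) ↔ ∃ c, c < 1 ∧ ∃ᶠ a in atTop, LowerBound c a) := by
  have hfr : ∀ {c : ℝ}, (∀ᶠ a in atTop, LowerBound c a) → ∃ᶠ a in atTop, LowerBound c a := fun h => h.frequently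
  have hq1 : (∃ σ, σ < 1 ∧ ∀ s : ℂ, σ ≤ s.re → riemannZeta s ≠ 0) → ∃ c, c < 1 ∧ ∀ᶠ a in atTop, LowerBound c a := by
    rintro ⟨σ, hσ, h⟩
    have h1 : (1 : ℝ) / 2 ≤ max σ (1 / 2) := le_max_right _ _
    have h2 : max σ (1 / 2) < 1 := max_lt hσ (by norm_num)
    refine ⟨max σ (1 / 2), h2, lb_of h1 (fun s hs => ?_) (by linarith)⟩
    by_contra hc
    push Not at hc
    exact h s ((le_max_left _ _).trans hc.le) hs
  have hq2 : (∃ c, c < 1 ∧ ∃ᶠ a in atTop, LowerBound c a) → ∃ σ, σ < 1 ∧ ∀ s : ℂ, σ ≤ s.re → riemannZeta s ≠ 0 := by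
    rintro ⟨c, hc, h⟩
    have h1 : (1 : ℝ) / 2 < max ((3 + c) / 4) (3 / 4) := lt_of_lt_of_le (by norm_num) (le_max_right _ _)
    have h2 : max ((3 + c) / 4) (3 / 4) < 1 := max_lt (by linarith) (by norm_num)
    refine ⟨max ((3 + c) / 4) (3 / 4), h2, fun s hs hz => ?_⟩
    have h3 : (3 + c) / 4 ≤ s.re := (le_max_left _ _).trans hs
    have h4 := neg_of hz (lt_of_lt_of_le h1 hs) (c := c) (by linarith)
    obtain ⟨a, ha1, f, hf, hlt⟩ := (h.and_eventually h4).exists
    exact absurd (ha1 f hf) (not_le.2 hlt)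
  refine ⟨limit, fun σ hσ => ⟨fun h c hc => lb_of hσ h hc, fun h => zf_of hσ fun c hc => hfr (h c hc)⟩,
    fun σ hσ => ⟨fun h c hc => hfr (lb_of hσ h hc), zf_of hσ⟩, fun s hs hre c hc => neg_of hs hre hc,
    fun c hc => ?_, ⟨hq1, fun ⟨c, hc, h⟩ => hq2 ⟨c, hc, hfr h⟩⟩, ⟨fun h => ?_, hq2⟩⟩
  · refine lb_of (σ := 1) (by norm_num) (fun s hs => ?_) (by linarith)
    by_contra hcon
    push Not at hcon
    exact riemannZeta_ne_zero_of_one_le_re hcon.le hs
  · obtain ⟨c, hc, h1⟩ := hq1 h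
    exact ⟨c, hc, hfr h1⟩

end Pool.Agent.Results.MP_5a4862_nt.WeilFormGrowth
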