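import Pool.Agent.Y746.DX.F
import Pool.Agent.Y746.DX.N3

set_option autoImplicit false

namespace Pool.Agent.Results.MP_5a4862_nt.XiCombinationZeros

/-- Riemann's entire function `ξ(s) = s(s-1)/2 * Λ(s)`, written with the entire part of `Λ`. -/
noncomputable def xi (s : ℂ) : ℂ := s * (s - 1) / 2 * completedRiemannZeta₀ s + 1 / 2

/-- `P(d/ds) F`. -/
noncomputable def applyD (P : Polynomial ℂ) (F : ℂ → ℂ) (s : ℂ) : ℂ :=
  P.sum fun k a => a * iteratedDeriv k F s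

/-- `(P₀(D) ξ)(s + a₀) + ∑ j, (P_j(D) ξ)(s + a_j)`. -/
noncomputable def combo {m : ℕ} (P₀ : Polynomial ℂ) (a₀ : ℂ) (P : Fin m → Polynomial ℂ) (a : Fin m → ℂ)
    (s : ℂ) : ℂ := applyD P₀ xi (s + a₀) + ∑ j, applyD (P j) xi (s + a j)

/-- For every `ε > 0` only finitely many zeros of `F` satisfy `θ + ε ≤ Re s ≤ 2`. -/
def FinRight (F : ℂ → ℂ) (θ : ℝ) : Prop :=
  ∀ ε : ℝ, 0 < ε → {s : ℂ | F s = 0 ∧ θ + ε ≤ s.re ∧ s.re ≤ 2}.Finite

/-- For every `ε > 0` and every `B` only finitely many zeros of `F` satisfy `θ + ε ≤ Re s ≤ B`. -/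
def FinStrips (F : ℂ → ℂ) (θ : ℝ) : Prop :=
  ∀ ε : ℝ, 0 < ε → ∀ B : ℝ, {s : ℂ | F s = 0 ∧ θ + ε ≤ s.re ∧ s.re ≤ B}.Finite

/-- First part: for every polynomial `P ≠ 0` without zeros on the two lines `|Im l| = π/4`, in
particular for `P = X ^ n`, the zeros of `P(D) ξ` and those of zeta accumulate to the right of the same
lines; so zeta has a zero-free half-plane `Re s > θ`, `θ < 1`, if and only if `P(D) ξ` has, for some
`θ < 1`, only finitely many zeros with `θ + ε ≤ Re s ≤ 2` for every `ε > 0`.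

Second part: let `F` be a combination of translates of derivatives of `ξ`, `a₀` the only shift with the
largest real part, and let the real parts of the shifts differ by less than `1`.  To the left of
`Re s = 1 - Re a₀` the zeros of `F` and those of zeta, moved by `Re a₀`, accumulate to the right of the
same lines; so zeta has a zero-free half-plane if and only if the line `Re s = 1 - Re a₀` can be improved
for `F`. -/
theorem result :
    (∀ P : Polynomial ℂ, P ≠ 0 → (∀ l : ℂ, P.IsRoot l → |l.im| ≠ Real.pi / 4) →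
      (∀ θ : ℝ, 1 / 2 ≤ θ → (FinRight (applyD P xi) θ ↔ FinRight riemannZeta θ)) ∧
      ((∃ θ : ℝ, θ < 1 ∧ ∀ s : ℂ, θ < s.re → riemannZeta s ≠ 0) ↔
        ∃ θ : ℝ, θ < 1 ∧ FinRight (applyD P xi) θ)) ∧
    (∀ (m : ℕ) (P₀ : Polynomial ℂ) (a₀ : ℂ) (P : Fin m → Polynomial ℂ) (a : Fin m → ℂ),
      P₀ ≠ 0 → (∀ l : ℂ, P₀.IsRoot l → |l.im| ≠ Real.pi / 4) →
      (∀ j, (a j).re < a₀.re ∧ a₀.re < (a j).re + 1) →
      (∃ θ₀ : ℝ, θ₀ < 1 ∧ ∀ θ : ℝ, θ₀ ≤ θ →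
        (FinStrips (combo P₀ a₀ P a) (θ - a₀.re) ↔ FinStrips riemannZeta θ)) ∧
      ((∃ θ : ℝ, θ < 1 ∧ ∀ s : ℂ, θ < s.re → riemannZeta s ≠ 0) ↔
        ∃ θ : ℝ, θ < 1 ∧ FinStrips (combo P₀ a₀ P a) (θ - a₀.re))) :=
  ⟨fun P hP hr => Pool.Agent.Y746.DX.main P hP hr,
    fun _ P₀ a₀ P a hP hr ha => Pool.Agent.Y746.DX.combo_main P₀ a₀ P a hP hr ha⟩

end Pool.Agent.Results.MP_5a4862_nt.XiCombinationZeros
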